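import Pool.Agent.NH30.KU.Final

/-!
# MP_d83ecd_ag: the Zilber-Pink conjecture for all but finitely many members of bounded degree of
degenerating families of subvarieties of `Y(1)^n` of any dimension

The Shimura variety `Y(1)^n` is identified with `ℂ^n` by the elliptic modular function
`jj = j = E₄³ / Δ`. Let `K ⊂ ℂ` be a field of algebraic numbers (for instance the field of all
algebraic numbers) and `T` a finite set of rational numbers.

**Families.** The theorem has two parts. (B) Let `Y_t ⊂ ℂ^n`, `t ∈ ℂ`, be an algebraic family over `K`
of subvarieties of dimension `m`: for every set `J` of `m + 1` coordinates an equation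
`G_J (y_j, j ∈ J; t) = 0` holds on `Y_t`, with coefficients in `K[t]`, of degree at most `d_J j` in
`y_j`, in which the coefficient of the top monomial `∏_{j ∈ J} y_j ^ (d_J j)` is not zero at the
elements `a` of `T` (no point of the closure of `Y_a` in `(P^1)^n` has `m + 1` coordinates equal to
`∞`). For example `Y_t = Y` can be constant. Let `r_i = P_i / Q_i ∈ K(t)` be rational functions which
have a pole at all elements of `T`. We consider the translates `X_t = Y_t + r (t)` (`shiftBy`).
(A) More generally let `X_t` be any family of subsets of `ℂ^n`, `t` not in a finite set `E` of
algebraic numbers, which is *starshaped* at all `a ∈ T` (`StarAt`): for all sets `J` of `m + 1`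
coordinates we have `H_J ((t - a) ^ (e_j) x_j, j ∈ J; t - a) = 0` for all `x ∈ X_t`, `e_j > 0`, where
`H_J (z; s)` is a polynomial over `K[s]` with `H_J (z; 0) = κ_J ∏_j ∏_{γ ∈ C_j} (z_j - γ) ^ (k_J j γ)`,
`κ_J ≠ 0`, and the degree of `H_J` in `z_j` is at most that of `H_J (z; 0)`. Here `C_j ⊂ K` is a finite
set of nonzero numbers (the centers) with at most `c_j` elements. (So in the coordinates
`z_j = (t - a) ^ (e_j) x_j` the limit for `t → a` is contained in the union of the coordinate subspaces of
dimension `m` through the points of `∏_j C_j`.) The data `e`, `C`, `k`, `κ`, `H` depend on `a`.

**The conclusion** for one member (`Good K m (X t) t b`) is the conjecture of Zilber and Pink in the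
form Q1 of the problem: there are finite sets `L i j` of natural numbers such that the atypical
intersections of `X_t` with ALL special subvarieties `Z` of `Y(1)^n` (all irreducible closed subsets of
`X_t ∩ Z` of dimension larger than `dim Z + m - n`, and all points of `X_t ∩ Z` whose transcendence
degree over `K (t)`, or any other countable field `K'` which contains `K` and `t`, is larger than
`dim Z + m - n`) are contained in the special hypersurfaces which are given by an isogeny of degree
`N ∈ L i j`, `N > 0`, between two coordinates `x_i` and `x_j`, `i < j`. Moreover `L i j` has at most `b i j`
elements, where `b i j = c_i c_j` in (A) and `b i j = 1` in (B): so in (B) the atypical intersections of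
`X_t` are contained in at most `n (n - 1) / 2` special hypersurfaces, a bound which is uniform in `t`;
`b = ⊤` means that there is no bound.

**Theorem** (`AlmostAllMembers`). The conclusion is true
1. for all transcendental numbers `t`, if `T` is not empty;
2. (with `b = ⊤`) for all algebraic numbers `t`, of any degree, such that
   `den (a) ^ (deg t) |G (a)| > M ^ (deg t)` for some `a ∈ T`, where `G ∈ ℤ[x]` is the primitive
   minimal polynomial of `t` and `M` is a constant of the family;
3. for all but finitely many algebraic numbers `t` whose degree over `ℚ` is less than the number of
   elements of `T`, and for all but finitely many algebraic integers `t` whose degree is at most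
   this number. So for all but finitely many rational numbers `t` if there are two degenerate
   members `a ∈ T`, and for all but finitely many integers `t` if there is one;
4. for all but finitely many elements `t` of each number field, if `T` has at least three elements;
5. (with `b = ⊤`) for all but finitely many numbers `t`, of any degree, with a rational power
   `t ^ N`, `N > 0`, if there are three elements of `T` with different nonzero absolute values;
6. (with `b = ⊤`) for all but finitely many roots of unity `t` if `T` contains some `a ≠ 0, 1, -1`.

For instance let `Y ⊂ Y(1)^n` be any subvariety of dimension `m` over the field of the algebraic numbers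
which meets the boundary of `(P^1)^n` properly, and `r_i ∈ ℚ (t)`, `i = 1, …, n`, arbitrary rational
functions with two common rational poles. Then the translates `Y + r (t)` satisfy the conjecture for
all but finitely many rational numbers `t`; the members in question are of any dimension, and there
is no condition on the orders of the poles or on the leading coefficients. The earlier theorems on all
but finitely many members (`RationalParameters`, `AlgebraicParameters`, `TropicalParameters`) need
`n (n - 1) / 2 + 1 + 2 d` degenerate members for the numbers `t` of degree `d`, with orders of the poles
which are independent modulo squares, or tropicalizations without points (but they exclude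
atypical intersections completely). Here `d + 1` degenerate members are enough.

**The proof.** (a) Let `Φ` be an embedding of `ℂ` into `ℂ_p`, for any prime number `p`, with
`|Φ (t) - a| < |M|_p`. Then for each point `x` of `X_t` all but `m` of the coordinates `x_j` are near to
numbers `γ / (t - a) ^ (e_j)`, and the local theorem of `LargeTranslates` (`KS.local_thm`) applies: the
atypical intersections are contained in special hypersurfaces of finitely many levels
(`KU.Loc`). (b) If there is no such embedding, for any `p`, then all roots in `ℂ_p` of the minimal
polynomial `G` of `t` have a distance `≥ |M|_p` from `a`. This implies that the integer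
`den (a) ^ (deg t) G (a)` divides the power of `M den (a) ^ 2` with exponent `deg t` (`KU.Root`,
`KU.Arith`), so it is bounded by the degree. (c) A polynomial of degree less than the number of
elements of `T` is determined by its values on `T`, so there are only finitely many such `t` of
bounded degree (`KU.Fin1`). For number fields and radical `t` the values of `G` on `T` have no large
prime factors, and the finiteness follows from the theorem on `S`-unit equations over number fields
(which is derived in the starting files from the subspace theorem).
-/

set_option autoImplicit false

namespace Pool.Agent.Results.MP_d83ecd_ag.AlmostAllMembers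

open MvPolynomial
open Pool.Agent.NH30.KU (StarAt AlmostAllMembers evalAt shiftBy final)

/-- **The conjecture of Zilber and Pink (Q1) for all but finitely many members of bounded degree of
degenerating families.** -/
theorem result (K : Subfield ℂ) (hK : ∀ z ∈ K, IsAlgebraic ℚ z) (n m : ℕ) (T : Finset ℚ) :
    (∀ E : Set ℂ, E.Finite → (∀ t ∈ E, IsAlgebraic ℚ t) → ∀ (c : Fin n → ℕ)
      (X : ℂ → Set (Fin n → ℂ)), (∀ a ∈ T, StarAt K E m c X a) →
      AlmostAllMembers K T m (fun i j => (c i * c j : ℕ)) X) ∧
    ∀ (G : ∀ J : Finset (Fin n), MvPolynomial J (Polynomial K))
      (d : ∀ J : Finset (Fin n), J →₀ ℕ),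
      (∀ J : Finset (Fin n), J.card = m + 1 → ∀ u ∈ (G J).support, ∀ j, u j ≤ d J j) →
      (∀ J : Finset (Fin n), J.card = m + 1 → ∀ a ∈ T,
        ((G J).coeff (d J)).eval ((a : ℚ) : K) ≠ 0) →
      ∀ Y : ℂ → Set (Fin n → ℂ),
      (∀ t, ∀ y ∈ Y t, ∀ J : Finset (Fin n), J.card = m + 1 →
        eval₂ (evalAt K t) (fun j : J => y j) (G J) = 0) →
      ∀ P Q : Fin n → Polynomial K, (∀ i, Q i ≠ 0) →
      (∀ i, ∀ a ∈ T, (P i).eval ((a : ℚ) : K) ≠ 0) →
      (∀ i, ∀ a ∈ T, (Q i).eval ((a : ℚ) : K) = 0) →
      AlmostAllMembers K T m (fun _ _ => 1) (fun t => shiftBy P Q t (Y t)) :=
  final K hK n m T

end Pool.Agent.Results.MP_d83ecd_ag.AlmostAllMembers
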