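import Pool.Agent.NH30.KS.Fin2

/-!
# MP_d83ecd_ag: the Zilber-Pink conjecture for all translates `Y + r` by vectors `r` which are large at
one place, and for all but very few rational translates, for subvarieties `Y` of `Y(1)^n` of any
dimension

The Shimura variety `Y(1)^n` is identified with `ℂ^n` by the elliptic modular function
`jj = j = E₄³ / Δ`.

**The subvarieties.** Let `K ⊂ ℂ` be a field of algebraic numbers (of finite or infinite degree, for
instance the field of all algebraic numbers) and `Y ⊂ ℂ^n` a subvariety over `K` of dimension `m`.
For every set `J` of `m + 1` coordinates let an equation `G_J (y_j, j ∈ J) = 0` be given which holds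
on `Y`, and let `d_J` be bounds for the degrees of `G_J`. We suppose that the coefficient of the top
monomial `∏_{j ∈ J} y_j ^ (d_J j)` is not zero. This says that no point of the closure of `Y` in
`(P^1)^n` has `m + 1` coordinates equal to `∞`, which is the case in general: the closure meets
the boundary properly.

**The conclusion.** Let `X = Y + r` be a translate. The conjecture of Zilber and Pink (Q1 of the
problem) for `X` says that the union of the atypical intersections of `X` with all special
subvarieties `Z` of `Y(1)^n` is contained in a finite union of proper special subvarieties. We prove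
this in an explicit form (`ZPin`): all irreducible closed subsets of `X ∩ Z` of dimension larger than
`dim Z + m - n`, and all points of `X ∩ Z` of transcendence degree over `K` larger than
`dim Z + m - n`, for all `Z`, are contained in the special hypersurfaces which are given by an isogeny
of degree `N > 0` between two coordinates `x_i` and `x_j`, where `N` runs through an explicit finite
set `L i j` (`Rel N x y`: `x` and `y` are related by an integral matrix of determinant `N`). There is no
condition on the special subvarieties `Z`, and their constant coordinates may also be integral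
over certain rings `O` (`SpecialVariety O n r`).

**Theorem.**
1. For each prime number `p` and each place `φ` of `K` above `p`, that is, each embedding
   `φ : K → ℂ_p`, there is a bound `B = B (Y, φ)` such that the conclusion holds for ALL translates
   `X = Y + r`, `r ∈ K^n` with `|φ (r_i)| > B` for all `i`. For all `p` larger than some
   number `D`, `B = 1`. More precisely, if `B ≤ ρ |φ (r_i)|` for all `i`, `ρ < 1`, then
   `L i j = levels p ρ (φ (r_i)) (φ (r_j))` is the set of the numbers `A B' g ^ 2` such that
   `A`, `B'` are coprime and `|φ (r_i) ^ A - ζ φ (r_j) ^ B'| ≤ ρ |φ (r_i)| ^ A` for a root of unity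
   `ζ` of the exact order `g`; it is finite, and it has at most one element if `ρ < 1 / 2`. (So for
   `|φ (r_i)| > 2 B` at most `n (n - 1) / 2` special hypersurfaces are needed, and if no
   `φ (r_i) ^ A / φ (r_j) ^ B'` is near to a root of unity there are no atypical intersections at
   all.) The constant coordinates of the `Z` may be integral over the ring of the elements of `K`
   which are integral at `φ`.
2. For `r ∈ ℚ^n`: if the denominators of all the `r_i` are divisible by a common prime number
   `p > D` then the atypical intersections of `Y + r` are contained in at most `n (n - 1) / 2`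
   special hypersurfaces, one for each pair `i < j`. (For instance `Y + c / p` for all integral
   vectors `c` with coordinates prime to `p`, for all prime numbers `p > D`.)
3. The number of the integral vectors `(t, c)` in the box of size `H` for which this is not
   true for `X = Y + c / t` (or `t = 0`) is at most `C H ^ n (log H) ^ a`. (The box contains
   `(2 H + 1) ^ (n + 1)` vectors.)

Here `Γ` is a given finite subset of `K`, and in 2. and 3. the constant coordinates of the `Z` may be
integral over the ring generated by `Γ`.

**The proof.** Let `x` be a point of `X ∩ Z` for which the dimension is too large. The embedding `φ`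
extends to an embedding of `ℂ` into `ℂ_p` such that the algebraically independent coordinates of
`x` are integral (`S_EMB`). At most `m` of the coordinates of `y = x - r` are larger than `B`, and the
other coordinates `x_i` are near to `r_i`, so they are not integral. The constant coordinates and those in
the classes of the independent coordinates are integral. So two of the coordinates near to `r_i` and
`r_j` are in the same class. The Tate parameters of `x_i` and `x_j` are near to `1 / r_i` and
`1 / r_j`, and they satisfy `q_j ^ B' = ζ q_i ^ A` (`Y226.tate_rel` of the starting files),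
where `N = A B' g ^ 2`. The valuations of `r_i`, `r_j` determine `A` and `B'`, and `ζ` is near to
`r_i ^ A / r_j ^ B'`. As roots of unity are at a positive distance from each other in `ℂ_p`, there are
only finitely many `N` (`S_FIN`).

The earlier theorems on subvarieties of dimension at least two which apply to all special
subvarieties (`LocalCriterion`, `RationalParameters`, `MoebiusTranslates`, `RationalTranslates` and
others) need several places, or concern random subvarieties; here one place is enough, and the
translate is arbitrary, subject to the condition that it is large at this place.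
-/

set_option autoImplicit false

namespace Pool.Agent.Results.MP_d83ecd_ag.LargeTranslates

open MvPolynomial
open Pool.Agent.NH30.KS (ZPin intRing levels shift main3)

/-- **Zilber-Pink for the translates which are large at one place, and for all but very few rational
translates.** -/
theorem result (K : Subfield ℂ) (hK : ∀ z ∈ K, IsAlgebraic ℚ z) (n m : ℕ)
    (G : ∀ J : Finset (Fin n), MvPolynomial J K) (d : ∀ J : Finset (Fin n), J →₀ ℕ)
    (hd : ∀ J : Finset (Fin n), J.card = m + 1 → ∀ u ∈ (G J).support, ∀ j, u j ≤ d J j)
    (htop : ∀ J : Finset (Fin n), J.card = m + 1 → (G J).coeff (d J) ≠ 0)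
    (Y : Set (Fin n → ℂ))
    (hY : ∀ y ∈ Y, ∀ J : Finset (Fin n), J.card = m + 1 → aeval (fun j : J => y j) (G J) = 0)
    (Γ : Finset ℂ) (hΓ : ∀ γ ∈ Γ, γ ∈ K) :
    ∃ D : ℕ,
      (∀ p : ℕ, ∀ _ : Fact p.Prime, ∀ φ : K →+* ℂ_[p], ∃ B : ℝ, 1 ≤ B ∧
        (D < p → B = 1 ∧ (Algebra.adjoin ℤ (Γ : Set ℂ)).toSubring ≤ intRing K φ) ∧
        ∀ (ρ : ℝ) (r : Fin n → K), ρ < 1 → (∀ i, B ≤ ρ * ‖φ (r i)‖) →
          (∀ i j, (levels p ρ (φ (r i)) (φ (r j))).Finite ∧
            (ρ < 1 / 2 → (levels p ρ (φ (r i)) (φ (r j))).Subsingleton)) ∧
          ZPin K (intRing K φ) m (shift (fun i => (r i : ℂ)) Y)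
            (fun i j => levels p ρ (φ (r i)) (φ (r j)))) ∧
      (∀ p : ℕ, p.Prime → D < p → ∀ r : Fin n → ℚ, (∀ i, p ∣ (r i).den) →
        ∃ L : Fin n → Fin n → ℕ, ZPin K (Algebra.adjoin ℤ (Γ : Set ℂ)).toSubring m
          (shift (fun i => (r i : ℂ)) Y) (fun i j => {L i j})) ∧
      ∃ C a : ℕ, ∀ H : ℕ, 2 ≤ H →
        ({v : ℤ × (Fin n → ℤ) | |v.1| ≤ (H : ℤ) ∧ (∀ i, |v.2 i| ≤ (H : ℤ)) ∧ (v.1 = 0 ∨
          ¬ ∃ L : Fin n → Fin n → ℕ, ZPin K (Algebra.adjoin ℤ (Γ : Set ℂ)).toSubring m
            (shift (fun i => (v.2 i : ℂ) / (v.1 : ℂ)) Y) (fun i j => {L i j}))}.ncard : ℝ) ≤
          C * (H : ℝ) ^ n * Real.log H ^ a :=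
  main3 K hK n m G d hd htop Y hY Γ hΓ

end Pool.Agent.Results.MP_d83ecd_ag.LargeTranslates
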