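import Pool.Agent.NH30.KF.Special
import Pool.Agent.NH30.KF.Count

/-!
# MP_d83ecd_ag: Zilber-Pink for general subvarieties of `Y(1)^n` and all special subvarieties of level
`N p ^ k`, `p` a large prime, `N` bounded, `k` arbitrary

The Shimura variety `Y(1)^n` is identified with `ℂ^n` by the elliptic modular function
`jj = j = E₄³ / Δ`. Fix a bound `B` and a monic integral polynomial `h` (for instance the product of
the class polynomials of the discriminants up to some bound). For a prime `p` let `SpecialVariety p B
h n r` be the special subvarieties `Z` of `Y(1)^n` of dimension `r` such that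

* the coordinates of `Z` in one class are `j (g_i z)`, with integral matrices `g_i` of determinant
  `N p ^ k`, `N ≤ B`, `k` arbitrary (depending on `i`);
* the constant coordinates of `Z` are numbers isogenous to a root of `h` by an isogeny of degree a
  power of `p` (for instance the special points of discriminant `D p ^ (2 k)` with bounded `D`).

So the complexity of `Z` away from `p` is bounded, and there is no condition on the `p`-part.

**Theorem.** There is a polynomial `R ≠ 0` with integral coefficients, which depends only on `n`, `c`,
`d`, `B`, `h`, such that for every subring `Λ` of `ℂ`, every homomorphism `ψ` from `Λ` to `ℤ / p`, `p`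
a prime, and every system `F` of `c` polynomials over `Λ` in `n` variables of degree at most `d` in
each variable with `R (ψ F) ≠ 0`, the set `X` of the zeros of `F` in `Y(1)^n` has no atypical
intersection with any such `Z`: every irreducible closed subset of `X ∩ Z` has dimension at most
`dim Z - c`, and the points of `X ∩ Z` have at most that transcendence degree over `Λ`. In particular
`X` has no point on `Z` if `dim Z < c`.

For integral systems (`Λ = ℤ`) this holds for all primes `p` which do not divide `R (F)`, thus for all
but finitely many `p` if `R (F) ≠ 0`; and `R (F) ≠ 0` for all but `O (H ^ (N - 1))` of the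
`(2 H + 1) ^ N` systems with coefficients of absolute value at most `H`, that is, for 100 % of them.

**Proof.** The congruence of Kronecker is proved from the expansion of `j`. So at a place above `p`
the coordinates in one class are, up to an isogeny of bounded degree, conjugate under powers of the
Frobenius, which preserves the reduction of `X` because the coefficients of `F` reduce to elements of
the prime field; the Frobenius conjugates of the reduction of a point of `X ∩ Z` form a grid
(`HasGrid`) on the reduction of `X` in `(P^1)^n`, of any size. A place is chosen at which a given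
transcendence basis reduces to given integers. Large grids do not exist on general systems: by
elimination it is enough to find one system without grids, and products of linear forms in one
variable in general position have this property, by counting.
-/

set_option autoImplicit false

namespace Pool.Agent.Results.MP_d83ecd_ag.PrimePowerLevels

open H294ZP UpperHalfPlane Pool.Agent.W282.ZP Pool.Agent.NH30.KF

/-- The theorem on general systems: `R` depends on `n`, `c`, `d`, `B`, `h` only. The first part is
about systems over arbitrary subrings `Λ` of `ℂ` with a homomorphism to `ℤ / p`, the second part is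
the special case of integral systems, and the third part says that `R` vanishes on at most
`C (2 H + 1) ^ (N - 1)` of the `(2 H + 1) ^ N` integral systems of size at most `H`. -/
theorem result (n c d B : ℕ) (h : Polynomial ℤ) (hh : h.Monic) :
    ∃ R : MvPolynomial (Fin c × (Fin n → Fin (d + 1))) ℤ, R ≠ 0 ∧
      (∀ (Λ : Subring ℂ) (p : ℕ), p.Prime → ∀ (ψ : Λ →+* ZMod p)
        (F : Fin c → (Fin n → Fin (d + 1)) → Λ),
        MvPolynomial.eval₂ (Int.castRingHom (ZMod p)) (fun v => ψ (F v.1 v.2)) R ≠ 0 →
        NoAtypical p B h Λ c (zeroSet fun j e => (F j e : ℂ))) ∧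
      (∀ (F : Fin c → (Fin n → Fin (d + 1)) → ℤ) (p : ℕ), p.Prime →
        ¬ (p : ℤ) ∣ MvPolynomial.eval (fun v => F v.1 v.2) R →
        ∀ Λ : Subring ℂ, NoAtypical p B h Λ c (zeroSet fun j e => ((F j e : ℤ) : ℂ))) ∧
      ∃ C : ℕ, ∀ H : ℕ, {F : Fin c × (Fin n → Fin (d + 1)) → ℤ | (∀ v, |F v| ≤ H) ∧
        MvPolynomial.eval F R = 0}.ncard * (2 * H + 1) ≤
          C * (2 * H + 1) ^ (c * (d + 1) ^ n) := by
  classical
  obtain ⟨G, hGm, hG⟩ := exists_modular_le (B * B)
  obtain ⟨z, R, hR0, hR⟩ := general (n := n) (c := c) (d := d) hGm h hh
  refine ⟨R, hR0, ?_, ?_, R.totalDegree, fun H => ?_⟩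
  · intro Λ p hp ψ F hF
    refine main hp ψ hGm hG hh F fun ρ S J hc => ⟨z, n * (c + n), fun k _ _ => ?_⟩
    refine hR k _ ?_ ρ S J hc
    have : Fact p.Prime := ⟨hp⟩
    have e1 := MvPolynomial.eval₂_comp_left (ZMod.castHom (dvd_refl p) k)
      (Int.castRingHom (ZMod p)) (fun v : Fin c × (Fin n → Fin (d + 1)) => ψ (F v.1 v.2)) R
    have e2 : (ZMod.castHom (dvd_refl p) k).comp (Int.castRingHom (ZMod p)) =
        Int.castRingHom k := RingHom.ext_int _ _
    rw [e2] at e1
    intro h0
    apply hF
    apply (ZMod.castHom (dvd_refl p) k).injective
    rw [e1, map_zero]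
    exact h0
  · intro F p hp hdvd
    refine mainZ hGm hG hh F hp fun ρ S J hc => ⟨z, n * (c + n), fun k _ _ => ?_⟩
    refine hR k _ ?_ ρ S J hc
    have e1 := MvPolynomial.eval₂_comp_left (Int.castRingHom k)
      (RingHom.id ℤ) (fun v : Fin c × (Fin n → Fin (d + 1)) => F v.1 v.2) R
    rw [RingHom.comp_id] at e1
    intro h0
    apply hdvd
    rw [← CharP.intCast_eq_zero_iff k p]
    exact e1.trans h0
  · have h1 := count_fintype hR0 H
    have h2 : Fintype.card (Fin c × (Fin n → Fin (d + 1))) = c * (d + 1) ^ n := by
      simp
    rw [h2] at h1
    exact h1

end Pool.Agent.Results.MP_d83ecd_ag.PrimePowerLevels
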