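import Pool.Agent.NH30.KT.Ord2
import Pool.Agent.NH30.KT.Rand
import Pool.Agent.NH30.KT.Main1

/-!
# MP_d83ecd_ag: Zilber-Pink for one hundred percent of the rational translates of subvarieties of
`Y(1)^n` of any dimension

The Shimura variety `Y(1)^n` is identified with `ℂ^n` by the elliptic modular function
`jj = j = E₄³ / Δ`.

**The subvarieties.** Let `K ⊂ ℂ` be a countable field (for instance the field of all algebraic
numbers) and `Y ⊂ ℂ^n` a subvariety over `K` of dimension `m` (or any set with the following
property). For every set `J` of `m + 1` coordinates let an equation `G_J (y_j, j ∈ J) = 0` be given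
which holds on `Y`, and let `d_J` be bounds for the degrees of `G_J`. We suppose that the coefficient
of the top monomial `∏_{j ∈ J} y_j ^ (d_J j)` is not zero. This says that no point of the closure of
`Y` in `(P^1)^n` has `m + 1` coordinates equal to `∞`, which is the case in general: the closure
meets the boundary properly.

**Theorem.** For almost all rational vectors `r`, the translate `Y + r` has no atypical intersection
at all with the special subvarieties `Z` of `Y(1)^n`: every irreducible closed subset of
`(Y + r) ∩ Z` has dimension at most `dim Z + m - n`, and the same bound holds for the transcendence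
degree over `K` of every point of `(Y + r) ∩ Z` (`NoAtypical`). In particular `Y + r` has no points on
the special subvarieties of codimension larger than `m`. The special subvarieties are arbitrary (all
isogenies between the coordinates, all CM points), and their constant coordinates may also be
arbitrary numbers which are integral over the ring generated by a given finite subset `Γ` of `K`.
More precisely:

1. (Criterion) There is a number `D` such that `Y + c / t` has no atypical intersection for all
   `c ∈ ℤ^n` and integers `t ≠ 0` which have `n (n - 1) / 2 + 1` prime factors `p > D` such that the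
   `c_i` are prime to `p` and, for all `i ≠ j`, the orders of `c_i / c_j` modulo these primes are
   different, even up to factors which are powers of these primes (`Gd`).
2. For one hundred percent of all integral vectors `(t, c)` in the box of size `H`, for `H → ∞`, the
   translate `Y + c / t` has no atypical intersection.
3. The number of rational vectors `r` of height at most `H` for which `Y + r` has an atypical
   intersection is at most `ε H ^ (n + 1)` for `H ≥ H₀(ε)`, for each `ε > 0`.

**The proof.** Let `p` be a large prime factor of `t` and `x` a point of `Y + c / t` on a special
subvariety for which the statement is wrong. In a suitable valuation ring above `p` at most `m`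
of the coordinates of `x - c / t` are not integral, and the remaining coordinates of `x` are near to
`c_i / t`. Two of them are in the same class of coordinates. Let `N` be the degree of the smallest
isogeny between `x_i` and `x_j`. As `x_i` and `x_j` have the same valuation, and the quotient is near
to `c_i / c_j`, `N = (g p ^ k) ^ 2`, where `g` is the order of `c_i / c_j` modulo `p` (by the expansion
at the cusps of the modular polynomial: its leading form is a product of cyclotomic polynomials;
`S_ORD2`). For one of the pairs `i, j` this is true for two of the primes. So two of the orders are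
the same, up to powers of the primes. Finally almost all integers have many large prime factors, and
almost all vectors `c` have essentially different orders at these primes (`S_RANDOM`).

The earlier theorems on families use different valuations of the coordinates at a place (scalings by
powers with independent exponents); for translates by rational vectors all coordinates have the same
valuation, and the isogenies are controlled by the residue classes of the leading coefficients.
-/

set_option autoImplicit false

namespace Pool.Agent.Results.MP_d83ecd_ag.RationalTranslates

open MvPolynomial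
open Pool.Agent.NH30.KT (Gd NoAtypical shift HeightLe s_ord2 s_random main1)

/-- **Almost all rational translates have no atypical intersections.** -/
theorem result (K : Subfield ℂ) [Countable K] (n m : ℕ)
    (G : ∀ J : Finset (Fin n), MvPolynomial J K) (d : ∀ J : Finset (Fin n), J →₀ ℕ)
    (hd : ∀ J : Finset (Fin n), J.card = m + 1 → ∀ u ∈ (G J).support, ∀ j, u j ≤ d J j)
    (htop : ∀ J : Finset (Fin n), J.card = m + 1 → (G J).coeff (d J) ≠ 0)
    (Y : Set (Fin n → ℂ))
    (hY : ∀ y ∈ Y, ∀ J : Finset (Fin n), J.card = m + 1 → aeval (fun j : J => y j) (G J) = 0)
    (Γ : Finset ℂ) (hΓ : ∀ γ ∈ Γ, γ ∈ K) :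
    (∃ D : ℕ, ∀ (t : ℤ) (c : Fin n → ℤ), t ≠ 0 → Gd n (n.choose 2 + 1) D t c →
      NoAtypical K Γ m (shift (fun i => (c i : ℚ) / (t : ℚ)) Y)) ∧
    (∀ ε : ℝ, 0 < ε → ∃ H₀ : ℕ, ∀ H : ℕ, H₀ ≤ H → (1 - ε) * (2 * H + 1) ^ (n + 1) ≤
      ({v : ℤ × (Fin n → ℤ) | |v.1| ≤ (H : ℤ) ∧ (∀ i, |v.2 i| ≤ (H : ℤ)) ∧ v.1 ≠ 0 ∧
        NoAtypical K Γ m (shift (fun i => (v.2 i : ℚ) / (v.1 : ℚ)) Y)}.ncard : ℝ)) ∧
    ∀ ε : ℝ, 0 < ε → ∃ H₀ : ℕ, ∀ H : ℕ, H₀ ≤ H →
      ({r : Fin n → ℚ | HeightLe H r ∧ ¬ NoAtypical K Γ m (shift r Y)}.ncard : ℝ) ≤
        ε * (H : ℝ) ^ (n + 1) :=
  main1 s_ord2 s_random K n m G d hd htop Y hY Γ hΓ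

end Pool.Agent.Results.MP_d83ecd_ag.RationalTranslates
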